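import Mathlib
import Pool.Agent.Y718.FinE
import Pool.Agent.X257.EX.Pairs2

/-!
# The semialgebraic form of Mazur's conjecture for varieties over many elliptic curves

For a positive proportion of the pairs `(A, B)` of positive integers: (1) for every affine variety `V`
over the affine elliptic curve `E : t² = s (s - A) (s - B)` the closure of the rational points of
`V` is semialgebraic over `ℚ` if this holds for the three fibres over the points `(0, 0)`, `(A, 0)`,
`(B, 0)`; (2) it holds for every family `w² = f(s, t, x, y₁, …, y_r)` over `E`, `f` of degree at most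
four in `x` and of total degree at most two in `y₁, …, y_r`.
-/

set_option autoImplicit false

namespace Pool.Agent.Results.MP_42de19_nt.BundlesOverEllipticCurves

open MvPolynomial Pool.Agent.TH729.SQ Pool.Agent.Y718 Pool.Agent.H581R2

/-- Semialgebraic sets defined over `ℚ`: the finite unions of sets
`{p = 0, q₁ > 0, …, q_k > 0}`, where `p` and the `qᵢ` are polynomials with rational
coefficients. -/
def Semialgebraic {n : ℕ} (S : Set (Fin n → ℝ)) : Prop :=
  ∃ (m : ℕ) (P : Fin m → MvPolynomial (Fin n) ℚ) (G : Fin m → Finset (MvPolynomial (Fin n) ℚ)),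
    S = {x : Fin n → ℝ | ∃ j : Fin m, (aeval x (P j) : ℝ) = 0 ∧
      ∀ g ∈ G j, (0 : ℝ) < aeval x g}

/-- the set of rational points `S`, as a set of real points -/
def realPoints {n : ℕ} (S : Set (Fin n → ℚ)) : Set (Fin n → ℝ) :=
  {x | ∃ u ∈ S, x = fun k => (u k : ℝ)}

/-- The polynomials over `ℚ[s, t]`, `s = X 0` and `t = X 1`, in the variables `x₁, …, x_n`. -/
abbrev Pol (n : ℕ) := MvPolynomial (Fin n) (MvPolynomial (Fin 2) ℚ)

/-- the polynomial over `ℚ` obtained from `f` by `s = a`, `t = b` -/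
noncomputable def spec {n : ℕ} (f : Pol n) (a b : ℚ) : MvPolynomial (Fin n) ℚ :=
  map (eval ![a, b]) f

/-- the rational points of the fibre `F₁(a, b, x) = … = F_m(a, b, x) = 0` -/
def fibre {n m : ℕ} (F : Fin m → Pol n) (a b : ℚ) : Set (Fin n → ℚ) :=
  {x | ∀ j, eval x (spec (F j) a b) = 0}

/-- the rational points `(s, t, x)` of the variety
`t² = s (s - A) (s - B)`, `F₁(s, t, x) = … = F_m(s, t, x) = 0` -/
def total {n m : ℕ} (A B : ℤ) (F : Fin m → Pol n) : Set (Fin (n + 2) → ℚ) :=
  {u | u 1 ^ 2 = u 0 * (u 0 - A) * (u 0 - B) ∧ (fun k => u k.succ.succ) ∈ fibre F (u 0) (u 1)}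

/-- The polynomial `f` in the variables `x = X 0` and `y_j = X (j + 1)`, with coefficients in
`ℚ[s, t]`, has degree at most four in `x` and total degree at most two in the variables `y_j`. -/
def QuadricFamily {r : ℕ} (f : Pol (r + 1)) : Prop :=
  f.degreeOf 0 ≤ 4 ∧ ∀ d ∈ f.support, ∑ j : Fin r, d j.succ ≤ 2

/-- the rational points `(s, t, w, x, y₁, …, y_r)` of the variety
`t² = s (s - A) (s - B)`, `w² = f(s, t, x, y₁, …, y_r)` -/
def bundle {r : ℕ} (A B : ℤ) (f : Pol (r + 1)) : Set (Fin (r + 4) → ℚ) :=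
  {u | u 1 ^ 2 = u 0 * (u 0 - A) * (u 0 - B) ∧
    u 2 ^ 2 = eval (fun k => u k.succ.succ.succ) (spec f (u 0) (u 1))}

/-- the property of the pairs `(A, B)` -/
def Good (A B : ℤ) : Prop :=
  (∀ (n m : ℕ) (F : Fin m → Pol n),
    (∀ e : ℚ, e * (e - A) * (e - B) = 0 → Semialgebraic (closure (realPoints (fibre F e 0)))) →
    Semialgebraic (closure (realPoints (total A B F)))) ∧
  ∀ (r : ℕ) (f : Pol (r + 1)), QuadricFamily f →
    Semialgebraic (closure (realPoints (bundle A B f)))

lemma sa_of {n : ℕ} {S : Set (Fin n → ℝ)} (h : Semialgebraic S) : SA S := by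
  obtain ⟨m, P, G, rfl⟩ := h
  exact SAP.exists_fin fun j => (SAP.eq_zero (PF.aeval (P j))).and
    (SAP.forall_mem (G j) fun g _ => SAP.pos (PF.aeval g))

/-- the embedding of the fibre over `(e, 0)` -/
def emb (n : ℕ) (e : ℝ) (x : Fin n → ℝ) : Fin (n + 2) → ℝ :=
  Fin.cons e (Fin.cons 0 x)

lemma emb_succ {n : ℕ} (e : ℝ) (x : Fin n → ℝ) (k : Fin n) : emb n e x k.succ.succ = x k := rfl

lemma closedEmb (n : ℕ) (e : ℝ) : Topology.IsClosedEmbedding (emb n e) := by
  refine Function.LeftInverse.isClosedEmbedding (f := fun v k => v k.succ.succ) (fun x => rfl)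
    ?_ ?_
  · exact continuous_pi fun k => continuous_apply _
  · refine continuous_pi fun k => ?_
    refine Fin.cases ?_ (fun k => Fin.cases ?_ (fun k => ?_) k) k
    · exact continuous_const
    · exact continuous_const
    · exact continuous_apply k

lemma sa_emb {n : ℕ} (e : ℚ) {S : Set (Fin n → ℝ)} (h : SA S) : SA (emb n e '' S) := by
  have h1 : SAP (fun v : Fin (n + 2) → ℝ => v 0 = ((e : ℚ) : ℝ) ∧ v 1 = ((0 : ℚ) : ℝ) ∧
      (fun k : Fin n => v k.succ.succ) ∈ S) :=
    (SAP.eq (PF.coord 0) (PF.const e)).and ((SAP.eq (PF.coord 1) (PF.const 0)).and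
      (SAP.preimage (p := fun v => v ∈ S) h fun k => PF.coord k.succ.succ))
  refine SAP.congr (q := fun v => v ∈ emb n e '' S) h1 fun v => ?_
  constructor
  · rintro ⟨x, hx, rfl⟩
    refine ⟨rfl, ?_, hx⟩
    show (0 : ℝ) = ((0 : ℚ) : ℝ)
    norm_num
  · rintro ⟨h2, h3, h4⟩
    refine ⟨_, h4, ?_⟩
    funext k
    refine Fin.cases ?_ (fun k => Fin.cases ?_ (fun k => ?_) k) k
    · exact h2.symm
    · have h5 : v 1 = 0 := by rw [h3]; norm_num
      exact h5.symm
    · rfl

/-- closures of sets over the three points -/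
lemma sa_total {n : ℕ} {A B : ℤ} (hN : Pool.Agent.X257.EX.NP A B) (T : ℚ → ℚ → Set (Fin n → ℚ))
    (hT : ∀ e : ℚ, e * (e - A) * (e - B) = 0 → SA (closure (realPoints (T e 0)))) :
    SA (closure (realPoints {u : Fin (n + 2) → ℚ | u 1 ^ 2 = u 0 * (u 0 - A) * (u 0 - B) ∧
      (fun k => u k.succ.succ) ∈ T (u 0) (u 1)})) := by
  have e1 : realPoints {u : Fin (n + 2) → ℚ | u 1 ^ 2 = u 0 * (u 0 - A) * (u 0 - B) ∧
      (fun k => u k.succ.succ) ∈ T (u 0) (u 1)} =
      (emb n (0 : ℚ) '' realPoints (T 0 0)) ∪ ((emb n (A : ℚ) '' realPoints (T A 0)) ∪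
        (emb n (B : ℚ) '' realPoints (T B 0))) := by
    ext v
    constructor
    · rintro ⟨u, ⟨h1, h2⟩, rfl⟩
      have h3 := hN (u 0) (u 1) h1
      rw [h3] at h1 h2
      have key : ∀ e : ℚ, u 0 = e → (fun k => (u k : ℝ)) ∈ emb n (e : ℚ) '' realPoints (T e 0) := by
        intro e he
        rw [he] at h2
        refine ⟨fun k => (u k.succ.succ : ℝ), ⟨_, h2, rfl⟩, ?_⟩
        funext k
        refine Fin.cases ?_ (fun k => Fin.cases ?_ (fun k => ?_) k) k
        · show (e : ℝ) = (u 0 : ℝ)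
          rw [he]
        · show (0 : ℝ) = (u 1 : ℝ)
          rw [h3]; norm_num
        · rfl
      rw [zero_pow two_ne_zero] at h1
      rcases mul_eq_zero.1 h1.symm with h4 | h4
      · rcases mul_eq_zero.1 h4 with h5 | h5
        · left; exact key 0 h5
        · right; left; exact key A (sub_eq_zero.1 h5)
      · right; right; exact key B (sub_eq_zero.1 h4)
    · have key : ∀ e : ℚ, e * (e - A) * (e - B) = 0 →
          v ∈ emb n (e : ℚ) '' realPoints (T e 0) → v ∈ realPoints {u : Fin (n + 2) → ℚ |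
            u 1 ^ 2 = u 0 * (u 0 - A) * (u 0 - B) ∧
            (fun k => u k.succ.succ) ∈ T (u 0) (u 1)} := by
        rintro e he ⟨x, ⟨u, hu, rfl⟩, rfl⟩
        refine ⟨Fin.cons e (Fin.cons 0 u), ⟨?_, ?_⟩, ?_⟩
        · show (0 : ℚ) ^ 2 = e * (e - A) * (e - B)
          rw [he, zero_pow two_ne_zero]
        · exact hu
        · funext k
          refine Fin.cases ?_ (fun k => Fin.cases ?_ (fun k => ?_) k) k
          · rfl
          · show (0 : ℝ) = ((0 : ℚ) : ℝ)
            norm_num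
          · rfl
      rintro (h | h | h)
      · exact key 0 (by ring) h
      · exact key A (by ring) h
      · exact key B (by ring) h
  rw [e1, closure_union, closure_union, (closedEmb n _).closure_image_eq,
    (closedEmb n _).closure_image_eq, (closedEmb n _).closure_image_eq]
  exact (sa_emb _ (hT 0 (by ring))).union ((sa_emb _ (hT A (by ring))).union
    (sa_emb _ (hT B (by ring))))

lemma good_of {A B : ℤ} (hN : Pool.Agent.X257.EX.NP A B) : Good A B := by
  refine ⟨fun n m F h => SA.frozen (sa_total hN (fibre F) fun e he => sa_of (h e he)),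
    fun r f hf => SA.frozen ?_⟩
  have h := sa_total (n := r + 2) hN (fun a b => {u | u 0 ^ 2 = eval (fun k => u k.succ) (spec f a b)})
    fun e _ => ?_
  · exact h
  · have hs : (spec f e 0).support ⊆ f.support := support_map_subset _ _
    exact line_final (spec f e 0) (degreeOf_le_iff.2 fun d hd => degreeOf_le_iff.1 hf.1 d (hs hd))
      fun d hd => hf.2 d (hs hd)

/-- **Theorem.** A positive proportion of the pairs of integers `1 ≤ A, B ≤ N` is good: let
`E : t² = s (s - A) (s - B)`. For every affine variety `V` over `E`, if the closures of the sets of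
rational points of the three fibres of `V` over the points `(e, 0)` of `E` are semialgebraic over
`ℚ`, then so is the closure of the set of rational points of `V`; and the closure of the set of
rational points of every variety `w² = f(s, t, x, y₁, …, y_r)` over `E`, `f` of degree at most four
in `x` and of total degree at most two in `y₁, …, y_r`, is semialgebraic over `ℚ`. -/
theorem result : ∃ κ : ℝ, 0 < κ ∧ ∃ N₀ : ℕ, ∀ N : ℕ, N₀ ≤ N →
    κ * (N : ℝ) ^ 2 ≤ (({t : ℤ × ℤ | (1 ≤ t.1 ∧ t.1 ≤ N) ∧ (1 ≤ t.2 ∧ t.2 ≤ N) ∧ t.1 ≠ t.2 ∧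
      Good t.1 t.2}.ncard : ℕ) : ℝ) := by
  classical
  obtain ⟨κ, hκ, N0, h⟩ := Pool.Agent.X257.EX.pairs2
  refine ⟨κ, hκ, N0, fun N hN => (h N hN).trans ?_⟩
  refine Nat.cast_le.2 ?_
  rw [← Set.ncard_coe_finset]
  refine Set.ncard_le_ncard_of_injOn (fun t : ℕ × ℕ => ((t.1 : ℤ), (t.2 : ℤ))) ?_ ?_ ?_
  · rintro ⟨A, B⟩ ht
    rw [Finset.mem_coe, Finset.mem_filter, Finset.mem_product, Finset.mem_Icc, Finset.mem_Icc] at ht
    obtain ⟨⟨g1, g2⟩, g3⟩ := ht
    dsimp only at g1 g2 g3
    have := g3.2.1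
    refine ⟨⟨?_, ?_⟩, ⟨?_, ?_⟩, ?_, good_of g3.2.2.2.2.2.2⟩ <;> dsimp only <;> omega
  · rintro ⟨A, B⟩ - ⟨A', B'⟩ - heq
    obtain ⟨e1, e2⟩ := Prod.mk.inj heq
    exact Prod.ext (by exact_mod_cast e1) (by exact_mod_cast e2)
  · refine Set.Finite.subset ((Set.finite_Icc (1 : ℤ) N).prod (Set.finite_Icc (1 : ℤ) N)) ?_
    rintro ⟨a, b⟩ ⟨h1, h2, -⟩
    exact ⟨h1, h2⟩

end Pool.Agent.Results.MP_42de19_nt.BundlesOverEllipticCurves
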