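import Pool.Agent.X296.Enr.Bridge

/-!
# Closures of the rational points of Enriques surfaces with a triquadratic double cover (helper296)

Let `F` be a polynomial of tridegree `(2,2,2)` over `ℚ` which is invariant under the simultaneous
change of the signs of `X (0,1)`, `X (1,1)`, `X (2,1)`: a linear combination with coefficients
`c k` of the 14 invariant monomials of tridegree `(2,2,2)`.  The sign change is an involution of
the surface `Y ⊂ P¹ × P¹ × P¹` given by `F = 0`.  It has no fixed points on `Y` if and only if the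
coefficients `c k` of the 8 corner monomials (`k i ≠ 1` for all `i`) are not zero.  The quotient
`X` of `Y` by this involution (an Enriques surface if `Y` is smooth) is embedded in `P¹³` by the 14
invariant monomials `z k`; its equations are `z k * z l = z m * z n` for `k + l = m + n`, and
`∑ c k * z k = 0`.

If `Y` has at most finitely many singular points and contains no fibre of the projections to
`P¹ × P¹`, then the closures of the sets of the rational points of the affine pieces of `X` are
semialgebraic sets defined over `ℚ`.  The same holds for the closures of the sets of the values of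
rational functions at the rational points of the products of finitely many such surfaces and of an
affine space.
-/

set_option autoImplicit false

namespace Pool.Agent.Results.MP_42de19_nt.EnriquesSurfaces

open MvPolynomial

/-- The indices of the monomials of tridegree `(2,2,2)` which are invariant under the sign
change. -/
abbrev Idx : Type := {k : Fin 3 → Fin 3 // Even ((k 0 : ℕ) + k 1 + k 2)}

/-- The equation `F` of the covering surface `Y`. -/
noncomputable def coverForm (c : Idx → ℚ) : MvPolynomial (Fin 3 × Fin 2) ℚ :=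
  ∑ k : Idx, C (c k) * ∏ i : Fin 3, (X (i, 0) ^ (2 - (k.1 i : ℕ)) * X (i, 1) ^ (k.1 i : ℕ))

/-- The hypotheses. -/
structure Admissible (c : Idx → ℚ) : Prop where
  /-- the sign change has no fixed points on `Y` -/
  free : ∀ k : Idx, (∀ i, k.1 i ≠ 1) → c k ≠ 0
  /-- no fibre of the projections to two of the factors lies on `Y` -/
  noFibre : ∀ (i : Fin 3) (p : Fin 3 → Fin 2 → AlgebraicClosure ℚ), (∀ j, p j ≠ 0) →
    ∃ w : Fin 2 → AlgebraicClosure ℚ,
      aeval (fun q : Fin 3 × Fin 2 => Function.update p i w q.1 q.2) (coverForm c) ≠ 0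
  /-- `Y` has only finitely many singular points -/
  isolated : ∃ S : Set (Fin 3 → Fin 2 → AlgebraicClosure ℚ), S.Finite ∧
    ∀ p : Fin 3 → Fin 2 → AlgebraicClosure ℚ, (∀ i, p i ≠ 0) →
      (∀ q : Fin 3 × Fin 2,
        aeval (fun r : Fin 3 × Fin 2 => p r.1 r.2) (pderiv q (coverForm c)) = 0) →
      ∃ s ∈ S, ∀ i, ∃ t : AlgebraicClosure ℚ, p i = t • s i

/-- The homogeneous coordinates of the rational points of the surface `X ⊂ P¹³`. -/
def OnSurface (c z : Idx → ℚ) : Prop :=
  z ≠ 0 ∧ (∀ k l m n : Idx, (∀ i, (k.1 i : ℕ) + l.1 i = m.1 i + n.1 i) →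
    z k * z l = z m * z n) ∧ ∑ k, c k * z k = 0

/-- A subset of `ℝⁿ` is a finite union of sets of the form `{P = 0, g₁ > 0, …, g_r > 0}`, with
rational polynomials. -/
def SemialgebraicOverQ {n : ℕ} (S : Set (Fin n → ℝ)) : Prop :=
  ∃ (m : ℕ) (P : Fin m → MvPolynomial (Fin n) ℚ) (G : Fin m → Finset (MvPolynomial (Fin n) ℚ)),
    S = {x : Fin n → ℝ | ∃ j : Fin m, (aeval x (P j) : ℝ) = 0 ∧
      ∀ g ∈ G j, (0 : ℝ) < aeval x g}

theorem result :
    -- the affine pieces `z l = 1` of `X`, in affine space with the coordinates numbered by `e`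
    (∀ c : Idx → ℚ, Admissible c → ∀ (n : ℕ) (e : Fin n ≃ Idx) (l : Idx),
      SemialgebraicOverQ (closure {x : Fin n → ℝ | ∃ z : Idx → ℚ, OnSurface c z ∧ z l = 1 ∧
        ∀ i, x i = (z (e i) : ℝ)})) ∧
    -- values of rational functions at the rational points of products of such surfaces and of
    -- affine spaces
    (∀ (ι κ : Type) [Finite ι] [Finite κ] (c : ι → Idx → ℚ), (∀ j, Admissible (c j)) →
      ∀ (n : ℕ) (p : Fin n → MvPolynomial ((ι × Idx) ⊕ κ) ℚ)
        (q : MvPolynomial ((ι × Idx) ⊕ κ) ℚ),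
        SemialgebraicOverQ (closure {y : Fin n → ℝ | ∃ (z : ι → Idx → ℚ) (u : κ → ℚ),
          (∀ j, OnSurface (c j) (z j)) ∧ eval (Sum.elim (fun r => z r.1 r.2) u) q ≠ 0 ∧
          ∀ i, y i = ((eval (Sum.elim (fun r => z r.1 r.2) u) (p i) /
            eval (Sum.elim (fun r => z r.1 r.2) u) q : ℚ) : ℝ)})) := by
  have hadm : ∀ c : Idx → ℚ, Admissible c → (∀ k : X296.Enr.I, (∀ i, k.1 i ≠ 1) → c k ≠ 0) ∧
      X296.Enr.Adm2 (W279.Tri.form (X296.Enr.arr 1 c)) := by
    intro c hc
    refine ⟨hc.free, ?_⟩
    have h1 : coverForm c = W279.Tri.form (X296.Enr.arr 1 c) := X296.Enr.form_eq c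
    rw [← h1]
    exact ⟨hc.noFibre, hc.isolated⟩
  have main : ∀ (ι κ : Type) [Finite ι] [Finite κ] (c : ι → Idx → ℚ), (∀ j, Admissible (c j)) →
      ∀ (n : ℕ) (p : Fin n → MvPolynomial ((ι × Idx) ⊕ κ) ℚ)
        (q : MvPolynomial ((ι × Idx) ⊕ κ) ℚ),
        SemialgebraicOverQ (closure {y : Fin n → ℝ | ∃ (z : ι → Idx → ℚ) (u : κ → ℚ),
          (∀ j, OnSurface (c j) (z j)) ∧ eval (Sum.elim (fun r => z r.1 r.2) u) q ≠ 0 ∧
          ∀ i, y i = ((eval (Sum.elim (fun r => z r.1 r.2) u) (p i) /
            eval (Sum.elim (fun r => z r.1 r.2) u) q : ℚ) : ℝ)}) := by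
    intro ι κ _ _ c hc n p q
    exact TH729.SQ.SA.frozen (X296.Enr.SA_values (fun j => (hadm (c j) (hc j)).1)
      (fun j => (hadm (c j) (hc j)).2) p q)
  refine ⟨fun c hc n e l => ?_, main⟩
  have h := main Unit Empty (fun _ => c) (fun _ => hc) n (fun i => X (Sum.inl ((), e i)))
    (X (Sum.inl ((), l)))
  convert h using 3
  ext x
  constructor
  · rintro ⟨z, hz, hl, hx⟩
    refine ⟨fun _ => z, fun s => s.elim, fun _ => hz, by simp [hl], fun i => ?_⟩
    rw [hx i]
    simp [hl]
  · rintro ⟨z, u, hz, hl, hx⟩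
    simp only [eval_X, Sum.elim_inl] at hl hx
    refine ⟨fun k => z () k / z () l, ⟨?_, ?_, ?_⟩, div_self hl, hx⟩
    · intro h0
      have := congrFun h0 l
      simp only [Pi.zero_apply, div_self hl] at this
      exact one_ne_zero this
    · intro a b m n hab
      have := (hz ()).2.1 a b m n hab
      simp only
      rw [div_mul_div_comm, div_mul_div_comm, this]
    · have h3 := (hz ()).2.2
      have h4 : ∑ k, c k * (z () k / z () l) = (∑ k, c k * z () k) / z () l := by
        rw [Finset.sum_div]
        exact Finset.sum_congr rfl fun k _ => by ring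
      rw [h4]
      change (∑ k, c k * z () k) / z () l = 0
      rw [h3, zero_div]

end Pool.Agent.Results.MP_42de19_nt.EnriquesSurfaces
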