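import Pool.Agent.X296.Kum.Final

/-!
# The semialgebraic form of Mazur's conjecture for double covers of Kummer type (helper296)

We consider the affine variety

  `w² = f(z) = A(z) ∏ q_i(z_i)`   (the product over the indices `i` in a set `I`)

over `ℚ`, where the `q_i` are arbitrary separable polynomials of degree three or four, and `A` is a
polynomial of degree at most two in each variable, which does not depend on the variables `z_i` with
`i ∈ I`. If `A` is a constant and `I` consists of all `n` indices, then this is the quotient of a
product `C₁ × ⋯ × C_n` of `n` arbitrary curves `C_i : v_i² = q_i(z_i)` of genus one, twisted by `A`, by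
a group `(ℤ/2)ⁿ⁻¹`: a Kummer surface (a K3 surface) for `n = 2`, a singular Calabi–Yau variety of
dimension `n` in general.

(1) The closure in `ℝ^(n+1)` of the set of **all** rational points of this variety is semialgebraic
over `ℚ`, if `A` has total degree at most three, or, more generally, if the closure in `ℝⁿ` of the
set of the rational zeros of `A` is semialgebraic over `ℚ`.

(2) The same for the closure of the set of the values of rational functions at the rational points
of products of such varieties and affine spaces.

Idea of the proof. For `w ≠ 0` the points `(±w, z_i)` lie on the quadratic twist `w² = C q_i(z_i)` of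
the curve `C_i`, where `C` depends on the other coordinates. The difference of these two points has
infinite order for all `z_i` outside a finite set `T_i` which does not depend on the twist
(`Pool.Agent.X296.Kum.twist_inf`, with the height estimates of `Pool.Agent.Y720.MZ`). So the
rational points are nondegenerate in the sense of the starting file `CalabiYauDoubleCovers` for the
variety obtained by specialising the coordinates `z_i` in `T_i`, and the set of all rational points
with `w ≠ 0` is a finite union of images of sets of nondegenerate points. The starting file treats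
only nondegenerate points.
-/

set_option autoImplicit false

namespace Pool.Agent.Results.MP_42de19_nt.KummerType

open MvPolynomial Pool.Agent.TH729.SQ Pool.Agent.H581R2

/-- Semialgebraic sets defined over `ℚ`: the finite unions of sets
`{p = 0, q₁ > 0, …, q_k > 0}`, where `p` and the `qᵢ` are polynomials with rational
coefficients. -/
def Semialgebraic {n : ℕ} (S : Set (Fin n → ℝ)) : Prop :=
  ∃ (m : ℕ) (P : Fin m → MvPolynomial (Fin n) ℚ) (G : Fin m → Finset (MvPolynomial (Fin n) ℚ)),
    S = {x : Fin n → ℝ | ∃ j : Fin m, (aeval x (P j) : ℝ) = 0 ∧
      ∀ g ∈ G j, (0 : ℝ) < aeval x g}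

theorem Semialgebraic.sa {n : ℕ} {S : Set (Fin n → ℝ)} (h : Semialgebraic S) : SA S := by
  obtain ⟨m, P, G, rfl⟩ := h
  refine SAP.exists_fin fun j => SAP.and (SAP.eq_zero (PF.aeval (P j))) ?_
  exact SAP.forall_mem (G j) fun g _ => SAP.pos (PF.aeval g)

/-- The data `A`, `I`, `q` of a double cover of Kummer type. -/
structure Datum (n : ℕ) where
  /-- the factor of degree at most two in each variable -/
  A : MvPolynomial (Fin n) ℚ
  /-- the set of indices -/
  I : Finset (Fin n)
  /-- the polynomials in one variable -/
  q : Fin n → Polynomial ℚ

/-- The polynomial `f = A ∏ q_i(z_i)`, the product over `i ∈ I`. -/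
noncomputable def Datum.f {n : ℕ} (D : Datum n) : MvPolynomial (Fin n) ℚ :=
  D.A * ∏ i ∈ D.I, Polynomial.aeval (X i : MvPolynomial (Fin n) ℚ) (D.q i)

/-- The hypotheses: the `q_i` are separable of degree three or four, `A` is of degree at most two in
each variable and does not depend on the variables `z_i`, `i ∈ I`, and `A` has total degree at most
three or the closure of the set of its rational zeros is semialgebraic over `ℚ`. -/
structure Admissible {n : ℕ} (D : Datum n) : Prop where
  separable : ∀ i ∈ D.I, (D.q i).Separable
  degree : ∀ i ∈ D.I, (D.q i).natDegree = 3 ∨ (D.q i).natDegree = 4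
  quadratic : ∀ k, D.A.degreeOf k ≤ 2
  independent : ∀ i ∈ D.I, D.A.degreeOf i = 0
  zeros : D.A.totalDegree ≤ 3 ∨
    Semialgebraic (closure {x : Fin n → ℝ | ∃ z : Fin n → ℚ, eval z D.A = 0 ∧ x = fun k => (z k : ℝ)})

/-- The rational points `(w, z)` of the variety `w² = f(z)`. The coordinate `0` is `w`. -/
def points {n : ℕ} (D : Datum n) : Set (Fin (n + 1) → ℚ) :=
  {u | u 0 ^ 2 = eval (fun k => u k.succ) D.f}

theorem points_SA {n : ℕ} {D : Datum n} (hD : Admissible D) : SA (closure (rl (points D))) := by
  refine Pool.Agent.X296.Kum.cover_SA (A := D.A) (I := D.I) (q := D.q)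
    ⟨hD.separable, fun i hi => ?_, fun i hi => ?_, hD.quadratic, hD.independent⟩ ?_
  · rcases hD.degree i hi with h | h <;> omega
  · rcases hD.degree i hi with h | h <;> omega
  · rcases hD.zeros with h | h
    · exact Pool.Agent.X296.Kum.zeros_SA D.A h
    · exact h.sa

/-- **The closure of the set of all rational points of a double cover of Kummer type.** -/
theorem result :
    -- (1) the closure of the set of the rational points
    (∀ (n : ℕ) (D : Datum n), Admissible D →
      Semialgebraic (closure {x : Fin (n + 1) → ℝ | ∃ u ∈ points D, x = fun k => (u k : ℝ)})) ∧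
    -- (2) the closure of the set of the values of rational functions on products
    (∀ (J κ : Type) [Finite J] [Finite κ] (n : ℕ) (D : J → Datum n), (∀ j, Admissible (D j)) →
      ∀ (m : ℕ) (p : Fin m → MvPolynomial ((J × Fin (n + 1)) ⊕ κ) ℚ)
        (q : MvPolynomial ((J × Fin (n + 1)) ⊕ κ) ℚ),
        Semialgebraic (closure {y : Fin m → ℝ | ∃ (x : J → Fin (n + 1) → ℚ) (u : κ → ℚ),
          (∀ j, x j ∈ points (D j)) ∧ eval (Sum.elim (fun a => x a.1 a.2) u) q ≠ 0 ∧
          ∀ k, y k = ((eval (Sum.elim (fun a => x a.1 a.2) u) (p k) /
            eval (Sum.elim (fun a => x a.1 a.2) u) q : ℚ) : ℝ)})) := by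
  refine ⟨fun n D hD => SA.frozen (points_SA hD), ?_⟩
  intro J κ _ _ n D hD m p q
  exact SA.frozen (values_main (fun j => points (D j)) (fun j => points_SA (hD j)) p q)

end Pool.Agent.Results.MP_42de19_nt.KummerType
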